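import Mathlib
import Pool.Agent.W548.Sh.Final

/-!
# Hodge classes of small codimension for almost all CM types of all CM fields

Let `E i` be any finite family of CM fields (nothing is assumed about their Galois groups, and the
fields may be isomorphic to each other), each of degree at least `2 g`, of total degree `2 N`. There
are `2 ^ N` families of CM types `Φ i` of the fields `E i`. The theorem shows: for all but

`2 ^ N * r * (2 N) ^ (2 p - 1) * (3 p + 1) ^ (- g / (4 p))`

of them, where `r` is the number of the fields, all rational Hodge classes of codimension at most
`p` on all products of copies of abelian varieties of CM types `(E i, Φ i)` are rational linear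
combinations of products of Hodge classes of codimension one; by the Lefschetz theorem on
(1,1)-classes these are classes of divisors. So the Hodge conjecture holds in codimension at most
`p` (and by the hard Lefschetz theorem in dimension at most `p`) for all these products.

For one field of degree `2 g` the exceptional proportion is at most
`(2 g) ^ (2 p - 1) * (3 p + 1) ^ (- g / (4 p))`. It is exponentially small in `g` for fixed `p` and
tends to zero, faster than any power of `g`, uniformly in all CM fields of degree `2 g` and all
`p ≤ √g / 5`.
-/

namespace Pool.Agent.W548.SmallCodimensionHodge

open NumberField Module Pool.Agent.H204R3.CM Pool.Agent.W548.Sh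

/-- CM fields `E i` of degree at least `2 g` and total degree `2 N`. The product of abelian
varieties of CM type (the factors are indexed by `J`, the factor with index `j` has the type
`(E (t j), Φ (t j))`) has the rational homology and the tangent space described by `per Φ t`. The
left hand side of the inequality is the number of families `Φ` of CM types for which some Hodge
class of codimension at most `p` on one of these products is not generated by the Hodge classes of
degree two. -/
theorem result {ι : Type} [Fintype ι] (E : ι → Type) [∀ i, Field (E i)] [∀ i, NumberField (E i)]
    [∀ i, IsCMField (E i)] (g N p : ℕ) (hg : ∀ i, 2 * g ≤ finrank ℚ (E i))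
    (hN : ∑ i, finrank ℚ (E i) = 2 * N) (hp : 0 < p) :
    ({Φ : ∀ i, Set (E i →+* ℂ) | (∀ i, IsCMType (Φ i)) ∧ ¬ ∀ {J : Type} [Fintype J] (t : J → ι),
      HodgeGeneratedUpTo (per Φ t) p}.ncard : ℝ) ≤
      2 ^ N * (Fintype.card ι * (2 * N) ^ (2 * p - 1) * (3 * p + 1) ^ (-(g / (4 * p) : ℝ))) :=
  ncard_le g N p hg hN hp

end Pool.Agent.W548.SmallCodimensionHodge
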